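import Pool.Agent.Work.MP_24ca2e_an.Main

set_option autoImplicit false

namespace Pool.Agent.Results.MP_24ca2e_an.SphereIsoDOS

open Pool.Agent.Work.MP_24ca2e_an

/-- For every `n ≥ 2` there are a finite connected multigraph `G` without vertices of degree `≤ 1`
and a Jacobi matrix `J₀` on it whose IsoDOS set is homeomorphic to the sphere `S^n`; so it is
connected and it is homeomorphic to no torus (`m = 0` is a point).  Here `C` is any universal cover
of `G`, and every `J` has exactly one density of states. -/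
theorem result (n : ℕ) (hn : 2 ≤ n) :
    ∃ (V E : Type) (_ : Fintype V) (_ : Fintype E) (G : MGraph V E) (J₀ : Params V E),
      Nonempty V ∧ G.Connected ∧ (∀ x, 2 ≤ G.degree x) ∧ (∃ C : Cover G, C.IsUniversal) ∧
      ∀ C : Cover G, C.IsUniversal →
        (∀ J : Params V E, ∃! k, C.IsDOS J k) ∧
        J₀ ∈ C.isoDOS J₀ ∧
        Nonempty (C.isoDOS J₀ ≃ₜ Metric.sphere (0 : EuclideanSpace ℝ (Fin (n + 1))) 1) ∧
        ∀ (x : C.isoDOS J₀) (m : ℕ), IsEmpty (connectedComponent x ≃ₜ (Fin m → Circle)) :=
  main_theorem n hn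

end Pool.Agent.Results.MP_24ca2e_an.SphereIsoDOS
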